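import Pool.Agent.H97.VB.Fin

/-!
# Tilings of the plane by congruent topological discs in which arbitrarily many tiles have the same neighbourhood

For every `n` there are a closed topological disc `C` in the plane and a tiling of the plane by congruent copies of
`C` in which `n` pairwise distinct tiles have the same neighbourhood. For a fixed `C` the number of the tiles with a
common neighbourhood is bounded, uniformly in the tiling.

The first part follows the library's proof for three tiles (a tile of Voderberg type whose copies form a fan of five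
around a vertex); here the fan has `2 m + 1` tiles, and its `2 m - 1` inner tiles have the same neighbourhood.
-/

namespace Pool.Agent.Results.MP_73e00a_co.ArbitrarilyManyTiles

open Set Metric MeasureTheory Pool.Agent.H97.VB

/-- A tiling of the plane by congruent copies of `C`. -/
def Tiling (C : Set ℂ) (𝒯 : Set (Set ℂ)) : Prop :=
  (∀ A ∈ 𝒯, ∃ g : ℂ ≃ᵢ ℂ, A = g '' C) ∧ ⋃₀ 𝒯 = univ ∧
    𝒯.Pairwise fun A B => Disjoint (interior A) (interior B)

/-- The neighbourhood of `A`: the union of all tiles that meet `A`. -/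
def N (𝒯 : Set (Set ℂ)) (A : Set ℂ) : Set ℂ := ⋃₀ {B ∈ 𝒯 | (B ∩ A).Nonempty}

theorem bounded {C : Set ℂ} (hC : IsCompact C) (hi : (interior C).Nonempty) :
    ∃ M : ℕ, ∀ 𝒯, Tiling C 𝒯 → ∀ A ∈ 𝒯, {B ∈ 𝒯 | N 𝒯 B = N 𝒯 A}.encard ≤ M := by
  obtain ⟨y, hy⟩ := hi
  obtain ⟨ε, ε0, hε⟩ := Metric.isOpen_iff.1 isOpen_interior y hy
  obtain ⟨r, hr⟩ := hC.isBounded.subset_closedBall y
  have v0 : volume (ball (0 : ℂ) ε) ≠ 0 := (measure_ball_pos _ _ ε0).ne'
  have V : volume (closedBall (0 : ℂ) (3 * r)) ≠ ⊤ := measure_closedBall_lt_top.ne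
  obtain ⟨M, hM⟩ := ENNReal.exists_nat_mul_gt v0 V
  refine ⟨M, fun 𝒯 h A hA => ?_⟩
  by_contra hlt
  push Not at hlt
  obtain ⟨F, hF, hc⟩ := Set.exists_subset_encard_eq hlt.le
  have Ff : F.Finite := Set.finite_of_encard_eq_coe hc
  choose! g hg using h.1
  have hb : ∀ B ∈ 𝒯, B ⊆ closedBall (g B y) r := fun B hB z hz => by
    rw [hg B hB] at hz
    obtain ⟨w, hw, rfl⟩ := hz
    rw [mem_closedBall, (g B).dist_eq]
    exact hr hw
  have hin : ∀ B ∈ 𝒯, ball (g B y) ε ⊆ interior B := fun B hB => by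
    refine interior_maximal ?_ isOpen_ball
    rw [← (g B).image_ball]
    conv_rhs => rw [hg B hB]
    exact image_mono (hε.trans interior_subset)
  have sub : ∀ B ∈ F, B ⊆ closedBall (g A y) (3 * r) := fun B hB z hz => by
    have h1 : z ∈ N 𝒯 B := ⟨B, ⟨(hF hB).1, ⟨z, hz, hz⟩⟩, hz⟩
    rw [(hF hB).2] at h1
    obtain ⟨B', ⟨hB', p, hp, hpA⟩, hz'⟩ := h1
    have a := mem_closedBall.1 (hb B' hB' hz')
    have b := mem_closedBall'.1 (hb B' hB' hp)
    have d := mem_closedBall.1 (hb A hA hpA)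
    rw [mem_closedBall]
    linarith [dist_triangle z (g B' y) (g A y), dist_triangle (g B' y) p (g A y)]
  have key : (M : ENNReal) * volume (ball (0 : ℂ) ε) ≤ volume (closedBall (g A y) (3 * r)) := by
    have disj : (Ff.toFinset : Set (Set ℂ)).PairwiseDisjoint fun B => ball (g B y) ε := by
      intro B hB B' hB' ne
      rw [Ff.coe_toFinset] at hB hB'
      exact (h.2.2 (hF hB).1 (hF hB').1 ne).mono (hin B (hF hB).1) (hin B' (hF hB').1)
    have card : Ff.toFinset.card = M := by
      rw [← Set.ncard_eq_toFinset_card F Ff, Set.ncard, hc]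
      rfl
    calc (M : ENNReal) * volume (ball (0 : ℂ) ε)
        = ∑ B ∈ Ff.toFinset, volume (ball (g B y) ε) := by
          rw [Finset.sum_congr rfl fun B _ => Measure.addHaar_ball_center volume (g B y) ε,
            Finset.sum_const, card, nsmul_eq_mul]
      _ = volume (⋃ B ∈ Ff.toFinset, ball (g B y) ε) :=
          (measure_biUnion_finset disj fun _ _ => measurableSet_ball).symm
      _ ≤ volume (closedBall (g A y) (3 * r)) := by
          refine measure_mono (iUnion₂_subset fun B hB => ?_)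
          have hB' := Ff.mem_toFinset.1 hB
          exact ((hin B (hF hB').1).trans interior_subset).trans (sub B hB')
  rw [Measure.addHaar_closedBall_center] at key
  exact absurd hM (not_lt.2 key)

theorem many (n : ℕ) : ∃ (C : Set ℂ) (𝒯 : Set (Set ℂ)), Nonempty (C ≃ₜ closedBall (0 : ℂ) 1) ∧
    Tiling C 𝒯 ∧ ∃ T : Fin n → Set ℂ, Function.Injective T ∧ (∀ i, T i ∈ 𝒯) ∧
      ∀ i j, N 𝒯 (T i) = N 𝒯 (T j) := by
  let _ : Par := ⟨n + 1, by omega⟩
  have hm : Par.m = n + 1 := rfl
  have eq : ∀ j k : Fin (2 * Par.m + 1), 1 ≤ j.1 ∧ j.1 + 2 ≤ (2 * Par.m + 1) → 1 ≤ k.1 ∧ k.1 + 2 ≤ (2 * Par.m + 1) →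
      N (range tile) (tile (0, .inl j)) = N (range tile) (tile (0, .inl k)) := fun j k a b => by
    refine congrArg sUnion (Set.ext fun B => and_congr_right ?_)
    rintro ⟨i, rfl⟩
    rw [nb j a, nb k b]
  refine ⟨T, range tile, T_disk.1, ⟨?_, eq_univ_of_forall fun x => ?_, ?_⟩,
    fun i => tile (0, .inl ⟨i.1 + 1, by omega⟩), fun i j e => ?_, fun i => ⟨_, rfl⟩,
    fun i j => eq _ _ (by simp only; omega) (by simp only; omega)⟩
  · rintro _ ⟨i, rfl⟩
    exact ⟨(V i).symm, by rw [IsometryEquiv.image_symm]; rfl⟩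
  · obtain ⟨n, t, h⟩ := cover x
    exact ⟨_, ⟨(n, t), rfl⟩, h⟩
  · rintro _ ⟨i, rfl⟩ _ ⟨j, rfl⟩ ne
    refine disjoint_iff_inter_eq_empty.mpr (not_nonempty_iff_eq_empty.mp fun h => ne ?_)
    rw [same (isOpen_interior.inter isOpen_interior) (inter_subset_left.trans interior_subset)
      (inter_subset_right.trans interior_subset) h]
  · have := congrArg Fin.val (inj e)
    exact Fin.ext (by simpa using this)

/-- For every `n` there are a closed topological disc `C` and a tiling of the plane by congruent copies of `C` with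
`n` pairwise distinct tiles of the same neighbourhood; and for every compact `C` with nonempty interior there is a
number `M` such that in no tiling by congruent copies of `C` more than `M` tiles have the same neighbourhood. -/
theorem result :
    (∀ n : ℕ, ∃ (C : Set ℂ) (𝒯 : Set (Set ℂ)),
      (IsCompact C ∧ Nonempty (C ≃ₜ closedBall (0 : ℂ) 1)) ∧ Tiling C 𝒯 ∧
      ∃ T : Fin n → Set ℂ, Function.Injective T ∧ (∀ i, T i ∈ 𝒯) ∧
        ∀ i j, N 𝒯 (T i) = N 𝒯 (T j)) ∧
    ∀ C : Set ℂ, IsCompact C → (interior C).Nonempty →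
      ∃ M : ℕ, ∀ 𝒯, Tiling C 𝒯 → ∀ A ∈ 𝒯, {B ∈ 𝒯 | N 𝒯 B = N 𝒯 A}.encard ≤ M := by
  refine ⟨fun n => ?_, fun C hC hi => bounded hC hi⟩
  obtain ⟨C, 𝒯, ⟨e⟩, h⟩ := many n
  refine ⟨C, 𝒯, ⟨?_, ⟨e⟩⟩, h⟩
  have : CompactSpace (closedBall (0 : ℂ) 1) :=
    isCompact_iff_compactSpace.1 (isCompact_closedBall _ _)
  exact isCompact_iff_compactSpace.2 e.symm.compactSpace

end Pool.Agent.Results.MP_73e00a_co.ArbitrarilyManyTiles
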